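import Pool.Agent.H574R2.Q4.Z
import Pool.Agent.H574R2.D9.Z
import Pool.Agent.H336R2.HD.Z

/-!
# The real numbers `1, ζ(3), ζ(5), ..., ζ(75)` span a `ℚ`-vector space of dimension at least four

The development behind this theorem is `Pool/Agent/H574R2/Q4/` (with the libraries `Pool/Agent/H574R2/D9/`,
`Pool/Agent/H336R2/HD/` and `Pool/Agent/H337R2/`), which is in the repository this team started from, where no
hand-in used it.
-/

namespace Pool.Agent.Results.MP_c2395a_nt.DimFourZeta75

/-- The `38` real numbers `1` and `ζ(2i+1) = ∑ 1/(n+1)^(2i+1)`, `1 ≤ i ≤ 37`, span a `ℚ`-vector space of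
dimension at least four. -/
theorem result : 4 ≤ Module.finrank ℚ (Submodule.span ℚ
    (Set.range fun i : Fin 38 =>
      if i.1 = 0 then (1 : ℝ) else ∑' n : ℕ, 1 / ((n : ℝ) + 1) ^ (2 * i.1 + 1))) :=
  Pool.Agent.H574R2.Q4.Z_main (Pool.Agent.H574R2.D9.Z_main Pool.Agent.H336R2.HD.Z_main)

end Pool.Agent.Results.MP_c2395a_nt.DimFourZeta75
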