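import Pool.Agent.H343Z.Z

/-!
# One of the four numbers `ζ(7)`, `ζ(9)`, `ζ(11)`, `ζ(13)` is irrational

The proof is the development `Pool/Agent/H343Z/` of the starting repository (with the libraries
`Pool/Agent/H336R2/`, `Pool/Agent/H337R2/`), designed by helper343 of an earlier round: Hankel
determinants of linear forms in `1, ζ(7), ζ(9), ζ(11), ζ(13)`, an archimedean bound and `p`-adic
bounds for all primes `p`.
-/

namespace Pool.Agent.Results.MP_c2395a_nt.OddZeta7To13

/-- At least one of `ζ(7)`, `ζ(9)`, `ζ(11)`, `ζ(13)` is irrational. -/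
theorem result :
    Irrational (∑' n : ℕ, 1 / ((n : ℝ) + 1) ^ 7) ∨ Irrational (∑' n : ℕ, 1 / ((n : ℝ) + 1) ^ 9) ∨
      Irrational (∑' n : ℕ, 1 / ((n : ℝ) + 1) ^ 11) ∨
        Irrational (∑' n : ℕ, 1 / ((n : ℝ) + 1) ^ 13) :=
  Pool.Agent.H343Z.Z_main

end Pool.Agent.Results.MP_c2395a_nt.OddZeta7To13
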