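import Pool.Agent.H337R2.Un3
import Pool.Agent.H337R2.Un5
import Pool.Agent.H337R2.Un7
import Pool.Agent.H337R2.Un9

/-!
# An irrational odd zeta value in every window `[s + 2, 21 s / 4)`

For every odd `s ≥ 3` one of the numbers `ζ(s+2), ζ(s+4), …, ζ(j)`, `j < 5.25 s`, is irrational.

All the mathematics is in the helper files `Pool/Agent/H337R2/` of the starting repository (uniform
certificates `certU_irrational`); this file only assembles the four residue classes modulo `8`.
-/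

namespace Pool.Agent.Results.MP_c2395a_nt.ZetaWindows

open Pool.Agent.H337R2

/-- For every odd `s ≥ 3` there is an odd `j` with `s + 2 ≤ j < 21 s / 4` such that
`ζ(j) = ∑_{n ≥ 0} 1/(n+1)^j` is irrational. -/
theorem result : ∀ s : ℕ, Odd s → 3 ≤ s →
    ∃ j : ℕ, Odd j ∧ s + 2 ≤ j ∧ 4 * j < 21 * s ∧
      Irrational (∑' n : ℕ, 1 / ((n : ℝ) + 1) ^ j) := by
  intro s hs h3
  have hB : (expd ubdm).length = 34 := by decide +kernel
  have hcases : ∃ m, s = 3 + 8 * m ∨ s = 5 + 8 * m ∨ s = 7 + 8 * m ∨ s = 9 + 8 * m := by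
    obtain ⟨k, hk⟩ := hs
    refine ⟨(s - 3) / 8, ?_⟩
    omega
  obtain ⟨m, hm | hm | hm | hm⟩ := hcases
  · obtain ⟨i, hi, hi3, hil, hirr⟩ := certU_irrational u3cert m
    have hl : (expd u3dm).length = 14 := by decide +kernel
    rw [hl, hB] at hil
    obtain ⟨t, ht⟩ := hi
    refine ⟨i + (3 + 8 * m - 1), ⟨t + 1 + 4 * m, by omega⟩, by omega, by omega, ?_⟩
    exact hirr
  · obtain ⟨i, hi, hi3, hil, hirr⟩ := certU_irrational u5cert m
    have hl : (expd u5dm).length = 22 := by decide +kernel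
    rw [hl, hB] at hil
    obtain ⟨t, ht⟩ := hi
    refine ⟨i + (5 + 8 * m - 1), ⟨t + 2 + 4 * m, by omega⟩, by omega, by omega, ?_⟩
    exact hirr
  · obtain ⟨i, hi, hi3, hil, hirr⟩ := certU_irrational u7cert m
    have hl : (expd u7dm).length = 30 := by decide +kernel
    rw [hl, hB] at hil
    obtain ⟨t, ht⟩ := hi
    refine ⟨i + (7 + 8 * m - 1), ⟨t + 3 + 4 * m, by omega⟩, by omega, by omega, ?_⟩
    exact hirr
  · obtain ⟨i, hi, hi3, hil, hirr⟩ := certU_irrational u9cert m
    have hl : (expd u9dm).length = 40 := by decide +kernel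
    rw [hl, hB] at hil
    obtain ⟨t, ht⟩ := hi
    refine ⟨i + (9 + 8 * m - 1), ⟨t + 4 + 4 * m, by omega⟩, by omega, by omega, ?_⟩
    exact hirr

end Pool.Agent.Results.MP_c2395a_nt.ZetaWindows
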